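import Pool.Agent.Lib.MP_293bbf_nt.A1

/-!
Two-sided Chebyshev bounds in every interval around almost all primes, at all scales down to
`log X`.
-/

open Finset

namespace Pool.Agent.Results.MP_293bbf_nt.AllIntervals

/-- The number of primes in `(a, b]`. -/
noncomputable def cnt (a b : ℝ) : ℝ :=
  (Nat.primeCounting ⌊b⌋₊ : ℝ) - (Nat.primeCounting ⌊a⌋₊ : ℝ)

/-- Every real interval `(a, b]` containing `p`, with `0 ≤ a`, `b ≤ 4 X` and length
`b - a ≥ lam * log X`, contains at least `(b - a) / (lam * log X)` and at most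
`lam * (b - a) / log X` primes. -/
def ChebAt (lam X : ℝ) (p : ℕ) : Prop :=
  ∀ a b : ℝ, 0 ≤ a → a < p → (p : ℝ) ≤ b → b ≤ 4 * X → lam * Real.log X ≤ b - a →
    (b - a) / (lam * Real.log X) ≤ cnt a b ∧ cnt a b ≤ lam * (b - a) / Real.log X

theorem result :
    ∃ C X0 : ℝ, 0 < C ∧ ∀ X lam : ℝ, X0 ≤ X → 1 ≤ lam →
      (({p : ℕ | p.Prime ∧ (p : ℝ) ≤ X ∧ ¬ ChebAt lam X p}.ncard : ℕ) : ℝ)
        ≤ C / lam * Nat.primeCounting ⌊X⌋₊ := by
  obtain ⟨C, X0, hC, h⟩ := MP293bbf.all_intervals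
  refine ⟨C, X0, hC, fun X lam hX hlam => ?_⟩
  refine le_trans ?_ (h X lam hX hlam)
  have hfin : {p : ℕ | p.Prime ∧ (p : ℝ) ≤ X ∧ ∃ a b : ℝ, 0 ≤ a ∧ a < p ∧ (p : ℝ) ≤ b ∧
      b ≤ 4 * X ∧ lam * Real.log X ≤ b - a ∧
      (MP293bbf.cnt a b < (b - a) / (lam * Real.log X) ∨
        lam * (b - a) / Real.log X < MP293bbf.cnt a b)}.Finite := by
    refine (Set.finite_Iic ⌊X⌋₊).subset ?_
    rintro p ⟨_, hp, _⟩
    exact Nat.le_floor hp
  exact_mod_cast Set.ncard_le_ncard (by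
    rintro p ⟨hp, hpX, hbad⟩
    refine ⟨hp, hpX, ?_⟩
    by_contra hcon
    refine hbad fun a b h1 h2 h3 h4 h5 => ?_
    by_contra h6
    refine hcon ⟨a, b, h1, h2, h3, h4, h5, ?_⟩
    rw [not_and_or, not_le, not_le] at h6
    exact h6) hfin

end Pool.Agent.Results.MP_293bbf_nt.AllIntervals
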