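import Pool.Agent.Lib.MP_293bbf_nt.B8

/-!
For almost all `x` the function `y ↦ R(x,y)` makes only a bounded number of jumps of size `lam`
over all the scales `log x ≤ y ≤ x`: jump inequality for the primes, with the exponent `2`.
-/

open Finset

namespace Pool.Agent.Results.MP_293bbf_nt.Jumps

/-- The number of primes in `(a, b]`. -/
noncomputable def cnt (a b : ℝ) : ℝ :=
  (Nat.primeCounting ⌊b⌋₊ : ℝ) - (Nat.primeCounting ⌊a⌋₊ : ℝ)

/-- `R(x,y) = (π(x+y) - π(x)) / (y / log x)`. -/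
noncomputable def R (x y : ℝ) : ℝ := cnt x (x + y) / (y / Real.log x)

/-- The pairs `(s, t)` of `P` do not overlap. -/
def Disj (P : Finset (ℕ × ℕ)) : Prop :=
  ∀ z ∈ P, ∀ z' ∈ P, z ≠ z' → z.2 ≤ z'.1 ∨ z'.2 ≤ z.1

/-- `P` is a family of non-overlapping `lam`-jumps of `y ↦ R(x,y)` on `[log x, x]`. -/
def IsJumps (lam : ℝ) (x : ℕ) (P : Finset (ℕ × ℕ)) : Prop :=
  Disj P ∧ ∀ z ∈ P, Real.log x ≤ (z.1 : ℝ) ∧ z.1 < z.2 ∧ z.2 ≤ x ∧
    lam < |R x z.1 - R x z.2|

/-- The largest size of a family of non-overlapping `lam`-jumps of `y ↦ R(x,y)`. -/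
noncomputable def jumps (lam : ℝ) (x : ℕ) : ℕ :=
  sSup {k : ℕ | ∃ P : Finset (ℕ × ℕ), IsJumps lam x P ∧ P.card = k}

theorem IsJumps.subset {lam : ℝ} {x : ℕ} {P : Finset (ℕ × ℕ)} (h : IsJumps lam x P) :
    P ⊆ Finset.range (x + 1) ×ˢ Finset.range (x + 1) := by
  intro z hz
  obtain ⟨_, h2, h3, _⟩ := h.2 z hz
  rw [Finset.mem_product, Finset.mem_range, Finset.mem_range]
  omega

theorem bddAbove_jumps (lam : ℝ) (x : ℕ) :
    BddAbove {k : ℕ | ∃ P : Finset (ℕ × ℕ), IsJumps lam x P ∧ P.card = k} := by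
  refine ⟨(Finset.range (x + 1) ×ˢ Finset.range (x + 1)).card, ?_⟩
  rintro k ⟨P, hP, rfl⟩
  exact Finset.card_le_card hP.subset

theorem exists_max (lam : ℝ) (x : ℕ) :
    ∃ P : Finset (ℕ × ℕ), IsJumps lam x P ∧ P.card = jumps lam x := by
  refine Nat.sSup_mem ?_ (bddAbove_jumps lam x)
  refine ⟨0, ∅, ⟨?_, ?_⟩, rfl⟩
  · intro z hz
    simp at hz
  · intro z hz
    simp at hz

theorem card_le_jumps {lam : ℝ} {x : ℕ} {P : Finset (ℕ × ℕ)} (h : IsJumps lam x P) :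
    P.card ≤ jumps lam x :=
  le_csSup (bddAbove_jumps lam x) ⟨P, h, rfl⟩

theorem jumps_anti {lam lam' : ℝ} (h : lam ≤ lam') (x : ℕ) : jumps lam' x ≤ jumps lam x := by
  obtain ⟨P, hP, hcard⟩ := exists_max lam' x
  rw [← hcard]
  refine card_le_jumps ⟨hP.1, fun z hz => ?_⟩
  obtain ⟨h1, h2, h3, h4⟩ := hP.2 z hz
  exact ⟨h1, h2, h3, h.trans_lt h4⟩

theorem result :
    (∀ (lam : ℝ) (x : ℕ), IsGreatest {k : ℕ | ∃ P : Finset (ℕ × ℕ), IsJumps lam x P ∧ P.card = k}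
      (jumps lam x)) ∧
    (∃ C X0 : ℝ, 0 < C ∧ ∀ (X : ℕ) (lam : ℝ), X0 ≤ X → 0 < lam → lam ≤ 1 →
      ∑ x ∈ Icc 2 X, (jumps lam x : ℝ) ≤ C / lam ^ 2 * X) ∧
    (∀ lam ε : ℝ, 0 < lam → 0 < ε → ∃ J X0 : ℕ, ∀ X : ℕ, X0 ≤ X →
      (((Icc 1 X).filter (fun x => J < jumps lam x)).card : ℝ) ≤ ε * X) := by
  have hmain : ∃ C X0 : ℝ, 0 < C ∧ ∀ (X : ℕ) (lam : ℝ), X0 ≤ X → 0 < lam → lam ≤ 1 →
      ∑ x ∈ Icc 2 X, (jumps lam x : ℝ) ≤ C / lam ^ 2 * X := by
    obtain ⟨C, X0, hC, h⟩ := MP293bbf.jumps_primes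
    refine ⟨C, X0, hC, fun X lam hX h0 h1 => ?_⟩
    choose P hP hcard using exists_max lam
    have h2 := h X lam hX h0 h1 P (fun x _ => hP x)
    have h3 : ∑ x ∈ Icc 2 X, (jumps lam x : ℝ) = ∑ x ∈ Icc 2 X, ((P x).card : ℝ) :=
      Finset.sum_congr rfl fun x _ => by rw [hcard x]
    rw [h3]
    exact h2
  refine ⟨fun lam x => ⟨exists_max lam x, ?_⟩, hmain, ?_⟩
  · rintro k ⟨P, hP, rfl⟩
    exact card_le_jumps hP
  · intro lam ε hlam hε
    obtain ⟨C, X0, hC, h⟩ := hmain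
    set l : ℝ := min lam 1 with hl
    have hl0 : 0 < l := lt_min hlam one_pos
    have hl1 : l ≤ 1 := min_le_right _ _
    set J : ℕ := ⌈2 * C / (l ^ 2 * ε)⌉₊ + 1 with hJ
    refine ⟨J, max ⌈X0⌉₊ (⌈2 / ε⌉₊ + 1), fun X hX => ?_⟩
    have hX1 : X0 ≤ X := (Nat.le_ceil X0).trans (by exact_mod_cast (le_max_left _ _).trans hX)
    have hX2 : 2 / ε ≤ X := (Nat.le_ceil (2 / ε)).trans (by
      have h1 : ⌈2 / ε⌉₊ + 1 ≤ X := (le_max_right _ _).trans hX
      exact_mod_cast (Nat.le_succ _).trans h1)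
    have hX3 : 2 ≤ ε * X := by
      rw [div_le_iff₀ hε] at hX2
      linarith
    have hsum := h X l hX1 hl0 hl1
    have hJ0 : (0 : ℝ) < J := by
      rw [hJ]
      positivity
    have hJ1 : 2 * C / (l ^ 2 * ε) ≤ J := by
      rw [hJ]
      push_cast
      linarith [Nat.le_ceil (2 * C / (l ^ 2 * ε))]
    have hcard : (((Icc 2 X).filter (fun x => J < jumps lam x)).card : ℝ) * J
        ≤ C / l ^ 2 * X := by
      refine le_trans ?_ hsum
      have h1 : (((Icc 2 X).filter (fun x => J < jumps lam x)).card : ℝ) * J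
          = ∑ x ∈ (Icc 2 X).filter (fun x => J < jumps lam x), (J : ℝ) := by
        rw [Finset.sum_const, nsmul_eq_mul]
      rw [h1]
      refine le_trans (Finset.sum_le_sum (g := fun x => (jumps l x : ℝ)) ?_) ?_
      · intro x hx
        rw [Finset.mem_filter] at hx
        have h2 : J ≤ jumps l x := hx.2.le.trans (jumps_anti (min_le_left _ _) x)
        exact_mod_cast h2
      · exact Finset.sum_le_sum_of_subset_of_nonneg (Finset.filter_subset _ _)
          (fun x _ _ => by positivity)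
    have hhalf : (((Icc 2 X).filter (fun x => J < jumps lam x)).card : ℝ) ≤ ε / 2 * X := by
      have h2 : C / l ^ 2 * X ≤ ε / 2 * X * J := by
        have h3 : C / l ^ 2 = ε / 2 * (2 * C / (l ^ 2 * ε)) := by
          field_simp
        rw [h3]
        have h4 : ε / 2 * (2 * C / (l ^ 2 * ε)) * X ≤ ε / 2 * J * X := by
          gcongr
        linarith
      have h5 := hcard.trans h2
      exact le_of_mul_le_mul_right h5 hJ0
    have hone : ((Icc 1 X).filter (fun x => J < jumps lam x)).card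
        ≤ ((Icc 2 X).filter (fun x => J < jumps lam x)).card + 1 := by
      have hsub : (Icc 1 X).filter (fun x => J < jumps lam x)
          ⊆ insert 1 ((Icc 2 X).filter (fun x => J < jumps lam x)) := by
        intro x hx
        rw [Finset.mem_filter, Finset.mem_Icc] at hx
        rw [Finset.mem_insert, Finset.mem_filter, Finset.mem_Icc]
        by_cases h1 : x = 1
        · exact Or.inl h1
        · exact Or.inr ⟨⟨by omega, hx.1.2⟩, hx.2⟩
      exact (Finset.card_le_card hsub).trans (Finset.card_insert_le _ _)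
    have hone' : (((Icc 1 X).filter (fun x => J < jumps lam x)).card : ℝ)
        ≤ (((Icc 2 X).filter (fun x => J < jumps lam x)).card : ℝ) + 1 := by exact_mod_cast hone
    linarith

end Pool.Agent.Results.MP_293bbf_nt.Jumps
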