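import Pool.Agent.Lib.MP_293bbf_nt.A2

/-!
For every `δ < 1` a positive proportion of all real `x` satisfies `δ ≤ R(x,y) ≤ lam` for all
`K log x ≤ y ≤ x` at once.
-/

open Finset Filter Topology

namespace Pool.Agent.Results.MP_293bbf_nt.RealsTwoSided

/-- `R(x,y) = (π(x+y) - π(x)) / (y / log x)`. -/
noncomputable def R (x y : ℝ) : ℝ :=
  ((Nat.primeCounting ⌊x + y⌋₊ : ℝ) - (Nat.primeCounting ⌊x⌋₊ : ℝ)) / (y / Real.log x)

/-- The set of `x > 1` with `δ ≤ R(x,y) ≤ lam` for all `K log x ≤ y ≤ x` simultaneously. -/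
def good (δ lam K : ℝ) : Set ℝ :=
  {x : ℝ | 1 < x ∧ ∀ y : ℝ, K * Real.log x ≤ y → y ≤ x → δ ≤ R x y ∧ R x y ≤ lam}

theorem measurable_pi : Measurable (fun x : ℝ => (Nat.primeCounting ⌊x⌋₊ : ℝ)) := by
  have h1 : Measurable (fun n : ℕ => (Nat.primeCounting n : ℝ)) := measurable_from_top
  exact h1.comp Nat.measurable_floor

theorem measurable_R {g : ℝ → ℝ} (hg : Measurable g) : Measurable (fun x => R x (g x)) := by
  unfold R
  refine Measurable.div (Measurable.sub ?_ measurable_pi) (hg.div Real.measurable_log)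
  exact measurable_pi.comp (measurable_id.add hg)

theorem R_right {x y : ℝ} (hx : 1 < x) (hy : 0 < y) :
    Tendsto (fun z => R x z) (𝓝[>] y) (𝓝 (R x y)) := by
  have hfl : ∀ᶠ z in 𝓝[>] y, ⌊x + z⌋₊ = ⌊x + y⌋₊ := by
    have h1 : x + y < ⌊x + y⌋₊ + 1 := Nat.lt_floor_add_one _
    have h2 : ∀ᶠ z in 𝓝[>] y, z < ⌊x + y⌋₊ + 1 - x :=
      (eventually_lt_nhds (by linarith)).filter_mono nhdsWithin_le_nhds
    filter_upwards [h2, self_mem_nhdsWithin] with z hz1 hz2
    have hz3 : y < z := hz2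
    rw [Nat.floor_eq_iff (by linarith)]
    refine ⟨(Nat.floor_le (by linarith)).trans (by linarith), by linarith⟩
  have hlog : 0 < Real.log x := Real.log_pos hx
  have h3 : Tendsto (fun z : ℝ => ((Nat.primeCounting ⌊x + y⌋₊ : ℝ) -
      (Nat.primeCounting ⌊x⌋₊ : ℝ)) / (z / Real.log x)) (𝓝 y) (𝓝 (R x y)) := by
    refine Tendsto.div tendsto_const_nhds (tendsto_id.div_const _) ?_
    positivity
  refine (h3.mono_left nhdsWithin_le_nhds).congr' ?_
  filter_upwards [hfl] with z hz
  rw [R, hz]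

theorem measurableSet_good (δ lam K : ℝ) (hK : 0 < K) : MeasurableSet (good δ lam K) := by
  have hset : good δ lam K = {x : ℝ | 1 < x} ∩ ({x : ℝ | x < K * Real.log x} ∪
      ({x : ℝ | δ ≤ R x x ∧ R x x ≤ lam} ∩ ⋂ q : ℚ, ({x : ℝ | ¬ (K * Real.log x < q ∧ (q : ℝ) < x)}
        ∪ {x : ℝ | δ ≤ R x q ∧ R x q ≤ lam}))) := by
    ext x
    constructor
    · rintro ⟨h1, h2⟩
      refine ⟨h1, ?_⟩
      rcases lt_or_ge x (K * Real.log x) with h3 | h3
      · exact Or.inl h3
      · refine Or.inr ⟨h2 x h3 le_rfl, Set.mem_iInter.2 fun q => ?_⟩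
        by_cases h4 : K * Real.log x < q ∧ (q : ℝ) < x
        · exact Or.inr (h2 q h4.1.le h4.2.le)
        · exact Or.inl h4
    · rintro ⟨h1, h2⟩
      have h1' : (1 : ℝ) < x := h1
      refine ⟨h1, fun y hy1 hy2 => ?_⟩
      rcases h2 with h2 | ⟨h3, h4⟩
      · exact absurd (hy1.trans hy2) (not_le.2 h2)
      · rcases eq_or_lt_of_le hy2 with h5 | h5
        · rw [h5]
          exact h3
        · have hlog : 0 < Real.log x := Real.log_pos h1'
          have hy0 : 0 < y := (mul_pos hK hlog).trans_le hy1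
          have hR := R_right h1' hy0
          have hex : ∀ S : Set ℝ, S ∈ 𝓝[>] y → ∃ q : ℚ, (q : ℝ) ∈ S ∧ K * Real.log x < q ∧
              (q : ℝ) < x := by
            intro S hS
            obtain ⟨u, hu, hsub⟩ := (mem_nhdsGT_iff_exists_Ioo_subset).1 hS
            have hu' : y < u := hu
            obtain ⟨q, hq1, hq2⟩ := exists_rat_btwn (lt_min hu' h5)
            exact ⟨q, hsub ⟨hq1, hq2.trans_le (min_le_left _ _)⟩, hy1.trans_lt hq1,
              hq2.trans_le (min_le_right _ _)⟩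
          constructor
          · by_contra hcon
            push Not at hcon
            obtain ⟨q, hq1, hq2, hq3⟩ := hex _ (hR (Iio_mem_nhds hcon))
            rcases Set.mem_iInter.1 h4 q with h6 | h6
            · exact h6 ⟨hq2, hq3⟩
            · exact absurd h6.1 (not_le.2 hq1)
          · by_contra hcon
            push Not at hcon
            obtain ⟨q, hq1, hq2, hq3⟩ := hex _ (hR (Ioi_mem_nhds hcon))
            rcases Set.mem_iInter.1 h4 q with h6 | h6
            · exact h6 ⟨hq2, hq3⟩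
            · exact absurd h6.2 (not_le.2 hq1)
  have hmP : ∀ g : ℝ → ℝ, Measurable g → MeasurableSet {x : ℝ | δ ≤ R x (g x) ∧ R x (g x) ≤ lam} :=
    fun g hg => (measurableSet_le measurable_const (measurable_R hg)).inter
      (measurableSet_le (measurable_R hg) measurable_const)
  have hKlog : Measurable (fun x : ℝ => K * Real.log x) := Real.measurable_log.const_mul K
  rw [hset]
  refine (measurableSet_lt measurable_const measurable_id).inter
    ((measurableSet_lt measurable_id hKlog).union ((hmP _ measurable_id).inter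
      (MeasurableSet.iInter fun q => ?_)))
  refine MeasurableSet.union ?_ (hmP _ measurable_const)
  exact ((measurableSet_lt hKlog measurable_const).inter
    (measurableSet_lt measurable_const measurable_id)).compl

theorem result : ∀ δ : ℝ, 0 < δ → δ < 1 → ∃ K lam c X0 : ℝ, 0 < c ∧
    MeasurableSet (good δ lam K) ∧ ∀ X : ℝ, X0 ≤ X →
      ENNReal.ofReal (c * X) ≤ MeasureTheory.volume (good δ lam K ∩ Set.Iic X) := by
  intro δ h0 h1
  obtain ⟨K, lam, c, X0, hc, h⟩ := MP293bbf.reals δ h0 h1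
  refine ⟨max K 1, lam, c, X0, hc, measurableSet_good _ _ _ (lt_max_of_lt_right one_pos),
    fun X hX => (h X hX).trans (MeasureTheory.measure_mono ?_)⟩
  rintro x ⟨hx1, hx2, hx3⟩
  refine ⟨⟨hx1, fun y hy1 hy2 => hx3 y (le_trans ?_ hy1) hy2⟩, hx2⟩
  exact mul_le_mul_of_nonneg_right (le_max_left _ _) (Real.log_nonneg hx1.le)

end Pool.Agent.Results.MP_293bbf_nt.RealsTwoSided
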