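import Pool.Agent.Lib.H62.RisingSun

/-!
The upper half of the inequality of Q1, uniformly in all `0 < y ≤ η x`, holds on a set of `x` of
positive lower logarithmic density, at least `(ε - η) / (1 + ε)`.
-/

open Filter Topology MeasureTheory Set

namespace Pool.Agent.Results.MP_293bbf_nt.UpperHalfAllY

/-- `R(x,y) = (π(x+y) - π(x)) / (y / log x)`. -/
noncomputable def R (x y : ℝ) : ℝ :=
  ((Nat.primeCounting ⌊x + y⌋₊ : ℝ) - (Nat.primeCounting ⌊x⌋₊ : ℝ)) / (y / Real.log x)

/-- The set of `x > 1` with `R(x,y) ≤ 1 + ε` for all `0 < y ≤ η x` simultaneously. -/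
def good (ε η : ℝ) : Set ℝ := {x : ℝ | 1 < x ∧ ∀ y : ℝ, 0 < y → y ≤ η * x → R x y ≤ 1 + ε}

/-- The logarithmic measure `∫_{E ∩ [1,X]} dx/x`, written in the variable `u = log x`. -/
noncomputable def logMeasureUpTo (E : Set ℝ) (X : ℝ) : ENNReal :=
  volume {u : ℝ | 0 ≤ u ∧ u ≤ Real.log X ∧ Real.exp u ∈ E}

open Pool.Agent.Lib.H62

theorem R_eq (x y : ℝ) : R x y = Rr x y := rfl

theorem floor_eventually_eq (x : ℝ) (hx : 0 ≤ x) :
    ∀ᶠ z : ℝ in 𝓝[Ici x] x, ⌊z⌋₊ = ⌊x⌋₊ := by
  have h1 : x < ⌊x⌋₊ + 1 := Nat.lt_floor_add_one x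
  have h2 : ∀ᶠ z : ℝ in 𝓝[Ici x] x, z < ⌊x⌋₊ + 1 :=
    (eventually_lt_nhds h1).filter_mono nhdsWithin_le_nhds
  filter_upwards [h2, self_mem_nhdsWithin] with z hz1 hz2
  rw [Nat.floor_eq_iff (hx.trans hz2)]
  exact ⟨(Nat.floor_le hx).trans hz2, hz1⟩

theorem measurable_rpi : Measurable rpi := rpi_mono.measurable

theorem measurableSet_good (ε η : ℝ) (hη : 0 < η) : MeasurableSet (good ε η) := by
  have hset : good ε η = {x : ℝ | 1 < x} ∩ ({x : ℝ | R x (η * x) ≤ 1 + ε} ∩
      ⋂ q : ℚ, {x : ℝ | (0 < (q : ℝ) ∧ (q : ℝ) < η * x) → R x q ≤ 1 + ε}) := by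
    ext x
    simp only [good, mem_ofPred_eq, mem_inter_iff, mem_iInter]
    constructor
    · rintro ⟨h1, h2⟩
      exact ⟨h1, h2 _ (by positivity) le_rfl, fun q hq => h2 q hq.1 hq.2.le⟩
    · rintro ⟨h1, h2, h3⟩
      refine ⟨h1, fun y hy hyx => ?_⟩
      rcases eq_or_lt_of_le hyx with h | h
      · rw [h]; exact h2
      · by_contra hcon
        push Not at hcon
        -- right continuity of y ↦ R x y
        have hlog : 0 < Real.log x := Real.log_pos h1
        have hx0 : 0 < x := by linarith
        have hfl := floor_eventually_eq (x + y) (by positivity)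
        have hmap : Tendsto (fun z => x + z) (𝓝[Ici y] y) (𝓝[Ici (x + y)] (x + y)) := by
          apply tendsto_nhdsWithin_of_tendsto_nhds_of_eventually_within
          · exact ((continuous_const.add continuous_id).tendsto y).mono_left nhdsWithin_le_nhds
          · filter_upwards [self_mem_nhdsWithin] with z hz
            simp only [mem_Ici] at hz ⊢
            linarith
        have hfl' : ∀ᶠ z in 𝓝[Ici y] y, ⌊x + z⌋₊ = ⌊x + y⌋₊ := hmap.eventually hfl
        have hcont : ContinuousAt (fun z : ℝ => ((Nat.primeCounting ⌊x + y⌋₊ : ℝ) -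
            (Nat.primeCounting ⌊x⌋₊ : ℝ)) / (z / Real.log x)) y := by
          apply ContinuousAt.div continuousAt_const
          · exact continuousAt_id.div_const _
          · positivity
        have hev : ∀ᶠ z in 𝓝[Ici y] y, 1 + ε < R x z := by
          have h4 : ∀ᶠ z in 𝓝[Ici y] y, 1 + ε < ((Nat.primeCounting ⌊x + y⌋₊ : ℝ) -
            (Nat.primeCounting ⌊x⌋₊ : ℝ)) / (z / Real.log x) :=
            (hcont.eventually (lt_mem_nhds hcon)).filter_mono nhdsWithin_le_nhds
          filter_upwards [h4, hfl'] with z hz1 hz2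
          unfold R
          rw [hz2]
          exact hz1
        rw [eventually_nhdsWithin_iff, Metric.eventually_nhds_iff] at hev
        obtain ⟨δ, hδ0, hδ⟩ := hev
        obtain ⟨q, hq1, hq2⟩ := exists_rat_btwn (show y < min (y + δ) (η * x) by
          apply lt_min <;> linarith)
        have hq3 := lt_of_lt_of_le hq2 (min_le_left _ _)
        have hq4 := lt_of_lt_of_le hq2 (min_le_right _ _)
        have h5 := hδ (y := (q : ℝ)) (by
          rw [Real.dist_eq, abs_of_nonneg (by linarith)]; linarith) hq1.le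
        have h6 := h3 q ⟨by linarith, hq4⟩
        linarith
  rw [hset]
  have hmR : Measurable (fun x : ℝ => R x (η * x)) := by
    unfold R
    have h1 : Measurable (fun x : ℝ => (Nat.primeCounting ⌊x + η * x⌋₊ : ℝ)) :=
      measurable_rpi.comp (measurable_id.add (measurable_const.mul measurable_id))
    have h2 : Measurable (fun x : ℝ => (Nat.primeCounting ⌊x⌋₊ : ℝ)) := measurable_rpi
    exact (h1.sub h2).div ((measurable_const.mul measurable_id).div Real.measurable_log)
  have hmq : ∀ q : ℚ, Measurable (fun x : ℝ => R x q) := by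
    intro q
    unfold R
    have h1 : Measurable (fun x : ℝ => (Nat.primeCounting ⌊x + (q : ℝ)⌋₊ : ℝ)) :=
      measurable_rpi.comp (measurable_id.add measurable_const)
    have h2 : Measurable (fun x : ℝ => (Nat.primeCounting ⌊x⌋₊ : ℝ)) := measurable_rpi
    exact (h1.sub h2).div (measurable_const.div Real.measurable_log)
  refine (measurableSet_lt measurable_const measurable_id).inter
    ((measurableSet_le hmR measurable_const).inter (MeasurableSet.iInter fun q => ?_))
  have : {x : ℝ | (0 < (q : ℝ) ∧ (q : ℝ) < η * x) → R x q ≤ 1 + ε} =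
      {x : ℝ | 0 < (q : ℝ) ∧ (q : ℝ) < η * x}ᶜ ∪ {x : ℝ | R x q ≤ 1 + ε} := by
    ext x
    simp only [mem_ofPred_eq, mem_union, mem_compl_iff]
    tauto
  rw [this]
  refine MeasurableSet.union (MeasurableSet.compl ?_) (measurableSet_le (hmq q) measurable_const)
  have : {x : ℝ | 0 < (q : ℝ) ∧ (q : ℝ) < η * x} =
      {x : ℝ | 0 < (q : ℝ)} ∩ {x : ℝ | (q : ℝ) < η * x} := rfl
  rw [this]
  exact (MeasurableSet.const _).inter
    (measurableSet_lt measurable_const (measurable_const.mul measurable_id))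

/-- `u ↦ ∑_{p ≤ e^u} log p / p`. -/
noncomputable def M (u : ℝ) : ℝ := Sm (Real.exp u)

theorem Sm_mono : Monotone Sm := by
  intro a b hab
  have h := Sm_sub a b hab
  have h2 : 0 ≤ ∑ p ∈ (Finset.Ioc ⌊a⌋₊ ⌊b⌋₊).filter Nat.Prime, Real.log p / p := by
    apply Finset.sum_nonneg
    intro p hp
    have hp1 := (Finset.mem_filter.mp hp).2
    have : (1 : ℝ) ≤ p := by exact_mod_cast hp1.one_le
    exact div_nonneg (Real.log_nonneg this) (by linarith)
  linarith

theorem M_mono : Monotone M := fun _ _ h => Sm_mono (Real.exp_le_exp.mpr h)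

theorem M_rc (u : ℝ) : ContinuousWithinAt M (Ici u) u := by
  have hfl := floor_eventually_eq (Real.exp u) (Real.exp_pos u).le
  have hmap : Tendsto Real.exp (𝓝[Ici u] u) (𝓝[Ici (Real.exp u)] (Real.exp u)) := by
    apply tendsto_nhdsWithin_of_tendsto_nhds_of_eventually_within
    · exact (Real.continuous_exp.tendsto u).mono_left nhdsWithin_le_nhds
    · filter_upwards [self_mem_nhdsWithin] with z hz
      exact Real.exp_le_exp.mpr hz
  have h2 : ∀ᶠ z in 𝓝[Ici u] u, M z = M u := by
    filter_upwards [hmap.eventually hfl] with z hz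
    unfold M Sm
    rw [hz]
  exact (tendsto_const_nhds (x := M u)).congr' (h2.mono fun z hz => hz.symm)

/-- **Theorem.** For `0 < η < ε` the set of `x` such that `R(x,y) ≤ 1 + ε` for all `0 < y ≤ η x`
is Borel and its logarithmic measure up to `X` is at least `((ε-η)/(1+ε)) log X - C`. -/
theorem result (ε η : ℝ) (hη : 0 < η) (hηε : η < ε) :
    MeasurableSet (good ε η) ∧ ∃ C : ℝ, ∀ X : ℝ, 1 ≤ X →
      ENNReal.ofReal ((ε - η) / (1 + ε) * Real.log X - C) ≤ logMeasureUpTo (good ε η) X := by
  refine ⟨measurableSet_good ε η hη, ?_⟩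
  obtain ⟨C₁, hC₁⟩ := mertens_prime_lower
  set C₀ := max C₁ 6 with hC₀
  set l := (1 + ε) / (1 + η) with hl
  have hl1 : 1 ≤ l := by rw [hl, le_div_iff₀ (by linarith)]; linarith
  have hl0 : 0 < l := by linarith
  refine ⟨2 * C₀ / l + 1, fun X hX => ?_⟩
  have hU : 0 ≤ Real.log X := Real.log_nonneg hX
  have hbd : ∀ u, 0 ≤ u → |M u - u| ≤ C₀ := by
    intro u hu
    have h1 := hC₁ (Real.exp u) (Real.one_le_exp hu)
    have h2 := mertens_prime_upper (Real.exp u) (Real.one_le_exp hu)
    rw [Real.log_exp] at h1 h2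
    have h3 : C₁ ≤ C₀ := le_max_left _ _
    have h4 : (6 : ℝ) ≤ C₀ := le_max_right _ _
    rw [abs_le]
    constructor
    · have : u - C₁ ≤ M u := h1
      linarith
    · have : M u ≤ u + 6 := h2
      linarith
  have hrs := rising_sun M_mono M_rc hbd hl1 (Real.log X) hU
  set G := {u : ℝ | 0 ≤ u ∧ u ≤ Real.log X ∧ ∀ v, u ≤ v → M v - M u ≤ l * (v - u)} with hG
  have hsub : G ⊆ Icc 0 1 ∪ {u : ℝ | 0 ≤ u ∧ u ≤ Real.log X ∧ Real.exp u ∈ good ε η} := by
    rintro u ⟨hu0, huX, hu⟩
    rcases le_total u 1 with h | h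
    · exact Or.inl ⟨hu0, h⟩
    · right
      refine ⟨hu0, huX, ?_, ?_⟩
      · exact Real.one_lt_exp_iff.mpr (by linarith)
      · intro y hy hyx
        set x := Real.exp u with hx
        have hx0 : 0 < x := Real.exp_pos u
        have hxe : Real.exp 1 ≤ x := Real.exp_le_exp.mpr h
        have hlogx : Real.log x = u := Real.log_exp u
        have hlogx1 : 1 ≤ Real.log x := by rw [hlogx]; exact h
        have hxy : 0 < x + y := by linarith
        have h1 := hu (Real.log (x + y)) (by
          rw [← hlogx]; exact Real.log_le_log hx0 (by linarith))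
        have h2 : M (Real.log (x + y)) = Sm (x + y) := by
          unfold M; rw [Real.exp_log hxy]
        have h3 : M u = Sm x := rfl
        rw [h2, h3, ← hlogx] at h1
        have h4 := le_Sm_sub x (x + y) hxe (by linarith)
        have h5 : Real.log (x + y) - Real.log x ≤ y / x := by
          rw [← Real.log_div hxy.ne' hx0.ne']
          have := Real.log_le_sub_one_of_pos (x := (x + y) / x) (by positivity)
          calc _ ≤ (x + y) / x - 1 := this
            _ = y / x := by field_simp; ring
        have h6 : Real.log x ≤ Real.log (x + y) := Real.log_le_log hx0 (by linarith)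
        have h7 : 0 ≤ rpi (x + y) - rpi x := by
          have := rpi_mono (show x ≤ x + y by linarith); linarith
        have h8 : (Real.log x / (x + y)) * (rpi (x + y) - rpi x) ≤ l * (y / x) := by
          calc (Real.log x / (x + y)) * (rpi (x + y) - rpi x)
              ≤ (Real.log (x + y) / (x + y)) * (rpi (x + y) - rpi x) := by gcongr
            _ ≤ Sm (x + y) - Sm x := h4
            _ ≤ l * (Real.log (x + y) - Real.log x) := h1
            _ ≤ l * (y / x) := by gcongr
        rw [R_eq]
        unfold Rr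
        rw [div_le_iff₀ (by positivity)]
        have h9 : rpi (x + y) - rpi x ≤ l * (y / x) * ((x + y) / Real.log x) := by
          have e : rpi (x + y) - rpi x =
            ((Real.log x / (x + y)) * (rpi (x + y) - rpi x)) * ((x + y) / Real.log x) := by
              field_simp
          rw [e]
          gcongr
        refine h9.trans ?_
        have h10 : (x + y) ≤ (1 + η) * x := by linarith
        calc l * (y / x) * ((x + y) / Real.log x)
            ≤ l * (y / x) * (((1 + η) * x) / Real.log x) := by gcongr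
          _ = (l * (1 + η)) * (y / Real.log x) := by field_simp
          _ = (1 + ε) * (y / Real.log x) := by
              congr 1
              rw [hl]; field_simp
  have hvolG : volume G ≤ 1 + logMeasureUpTo (good ε η) X := by
    calc volume G ≤ volume (Icc (0 : ℝ) 1 ∪
            {u : ℝ | 0 ≤ u ∧ u ≤ Real.log X ∧ Real.exp u ∈ good ε η}) := measure_mono hsub
      _ ≤ volume (Icc (0 : ℝ) 1) + volume {u : ℝ | 0 ≤ u ∧ u ≤ Real.log X ∧
            Real.exp u ∈ good ε η} := measure_union_le _ _
      _ = _ := by rw [Real.volume_Icc]; simp [logMeasureUpTo]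
  -- divide by l
  have hfin : ENNReal.ofReal ((l - 1) * Real.log X - 2 * C₀) ≤
      ENNReal.ofReal l * (1 + logMeasureUpTo (good ε η) X) := hrs.trans (by gcongr)
  have hl_ne : ENNReal.ofReal l ≠ 0 := by simp [hl0]
  have hdiv : ENNReal.ofReal (((l - 1) * Real.log X - 2 * C₀) / l) ≤
      1 + logMeasureUpTo (good ε η) X := by
    rw [ENNReal.ofReal_div_of_pos hl0]
    rw [ENNReal.div_le_iff_le_mul (Or.inl hl_ne) (Or.inl ENNReal.ofReal_ne_top)]
    rw [mul_comm (1 + logMeasureUpTo (good ε η) X)]
    exact hfin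
  have heq : ((l - 1) * Real.log X - 2 * C₀) / l =
      ((ε - η) / (1 + ε) * Real.log X - (2 * C₀ / l + 1)) + 1 := by
    have e1 : (l - 1) / l = (ε - η) / (1 + ε) := by
      rw [hl]
      have : (1 : ℝ) + η ≠ 0 := by linarith
      have : (1 : ℝ) + ε ≠ 0 := by linarith
      field_simp
      ring
    rw [← e1]
    field_simp
    ring
  rw [heq] at hdiv
  have h2 : ENNReal.ofReal ((ε - η) / (1 + ε) * Real.log X - (2 * C₀ / l + 1)) + 1 ≤
      1 + logMeasureUpTo (good ε η) X ∨
      ENNReal.ofReal ((ε - η) / (1 + ε) * Real.log X - (2 * C₀ / l + 1)) = 0 := by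
    rcases le_total 0 ((ε - η) / (1 + ε) * Real.log X - (2 * C₀ / l + 1)) with h | h
    · left
      rw [ENNReal.ofReal_add h zero_le_one, ENNReal.ofReal_one] at hdiv
      exact hdiv
    · right
      exact ENNReal.ofReal_of_nonpos h
  rcases h2 with h | h
  · rw [add_comm] at h
    exact (ENNReal.add_le_add_iff_left ENNReal.one_ne_top).mp h
  · rw [h]; exact zero_le

end Pool.Agent.Results.MP_293bbf_nt.UpperHalfAllY
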